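import Mathlib

/-!
# A finite complete rewriting system for the Baumslag-Gersten group: statements

Letters: `a = 0`, `A = 1`, `b = 2`, `B = 3`, `p = 4`, `P = 5`, `t = 6`, `T = 7` (capital letters are
the inverses), `b = T a t`, `p = t a T`.
-/

set_option autoImplicit false

namespace Pool.Agent.W391.BGR

/-- words -/
abbrev Wd := List (Fin 8)

/-- one rewriting step -/
def St {α : Type} (R : Finset (List α × List α)) (u v : List α) : Prop :=
  ∃ x y : List α, ∃ p ∈ R, u = x ++ p.1 ++ y ∧ v = x ++ p.2 ++ y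

/-- the rules with `a`, `p` -/
def RA : Finset (Wd × Wd) :=
  {([0, 1], []), ([1, 0], []), ([4, 5], []), ([5, 4], []), ([4, 0], [0, 4, 4]),
    ([5, 0], [0, 5, 5]), ([4, 4, 1], [1, 4]), ([5, 1], [4, 1, 5])}

/-- the rules with `b` -/
def RB : Finset (Wd × Wd) :=
  {([2, 3], []), ([3, 2], []), ([3, 0], [0, 0, 3]), ([3, 1], [1, 1, 3]), ([2, 0, 0], [0, 2]),
    ([2, 1], [1, 2, 0])}

/-- the rules with `t` -/
def RT : Finset (Wd × Wd) :=
  {([6, 7], []), ([7, 6], []), ([6, 0], [4, 6]), ([6, 1], [5, 6]), ([6, 2], [0, 6]),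
    ([6, 3], [1, 6]), ([7, 4], [0, 7]), ([7, 5], [1, 7]), ([7, 0], [2, 7]), ([7, 1], [3, 7])}

/-- the rewriting system -/
def RR : Finset (Wd × Wd) := RA ∪ RB ∪ RT

/-- the relator of the Baumslag-Gersten group, generators `a = 0`, `t = 1` -/
def rel : FreeGroup (Fin 2) :=
  ((FreeGroup.of 1)⁻¹ * (FreeGroup.of 0)⁻¹ * FreeGroup.of 1) * FreeGroup.of 0 *
    ((FreeGroup.of 1)⁻¹ * FreeGroup.of 0 * FreeGroup.of 1) * ((FreeGroup.of 0) ^ 2)⁻¹

/-- the Baumslag-Gersten group -/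
abbrev BG := PresentedGroup ({rel} : Set (FreeGroup (Fin 2)))

/-- the generators -/
def ga : BG := PresentedGroup.of 0
/-- the generators -/
def gt : BG := PresentedGroup.of 1

/-- the letter map -/
def phi : Fin 8 → BG :=
  ![ga, ga⁻¹, gt⁻¹ * ga * gt, gt⁻¹ * ga⁻¹ * gt, gt * ga * gt⁻¹, gt * ga⁻¹ * gt⁻¹, gt, gt⁻¹]

/-- LC: local confluence -/
def LC : Prop := ∀ u v w : Wd, St RR u v → St RR u w →
  Relation.Join (Relation.ReflTransGen (St RR)) v w

/-- ONTO -/
def ONTO : Prop := ∀ g : BG, ∃ w : Wd, (w.map phi).prod = g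

/-- REL: the rules hold in the group -/
def REL : Prop := ∀ p ∈ RR, (p.1.map phi).prod = (p.2.map phi).prod

/-- PRES: words with the same value are equivalent -/
def PRES : Prop := ∀ u v : Wd, (u.map phi).prod = (v.map phi).prod →
  Relation.ReflTransGen (fun a b => St RR a b ∨ St RR b a) u v

end Pool.Agent.W391.BGR
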