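import Pool.Agent.W391.BGR.Stm

/-!
# Termination
-/

set_option autoImplicit false

namespace Pool.Agent.W391.BGR

variable {α : Type}

/-- rewriting steps or deletion of the first letter -/
theorem acc_drop (R : Finset (List α × List α)) (h : ∀ w, Acc (fun v u => St R u v) w) :
    ∀ w : List α, Acc (fun v u => St R u v ∨ ∃ x, u = x :: v) w := by
  have key : ∀ w : List α, Acc (fun v u => St R u v) w → ∀ (n : ℕ) (v u : List α),
      v.length ≤ n → w = u ++ v → Acc (fun v u => St R u v ∨ ∃ x, u = x :: v) v := by
    intro w hw
    induction hw with
    | intro w _ ih =>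
      intro n
      induction n with
      | zero =>
        intro v u hn hw
        refine Acc.intro _ ?_
        rintro v' (hs | ⟨x, hx⟩)
        · refine ih (u ++ v') ?_ v'.length v' u le_rfl rfl
          obtain ⟨x, y, p, hp, h1, h2⟩ := hs
          exact ⟨u ++ x, y, p, hp, by rw [hw, h1]; simp, by rw [h2]; simp⟩
        · rw [hx] at hn
          simp at hn
      | succ n ihn =>
        intro v u hn hw
        refine Acc.intro _ ?_
        rintro v' (hs | ⟨x, hx⟩)
        · refine ih (u ++ v') ?_ v'.length v' u le_rfl rfl
          obtain ⟨x, y, p, hp, h1, h2⟩ := hs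
          exact ⟨u ++ x, y, p, hp, by rw [hw, h1]; simp, by rw [h2]; simp⟩
        · refine ihn v' (u ++ [x]) ?_ ?_
          · rw [hx] at hn
            simpa using hn
          · rw [hw, hx]; simp
  exact fun w => key w (h w) w.length w [] le_rfl rfl

open Classical in
/-- number of separators -/
noncomputable def cnt (sep : α → Prop) (w : List α) : ℕ := w.countP (fun x => decide (sep x))

theorem cnt_append (sep : α → Prop) (u v : List α) : cnt sep (u ++ v) = cnt sep u + cnt sep v := by
  unfold cnt
  exact List.countP_append

theorem cnt_zero {sep : α → Prop} {w : List α} : cnt sep w = 0 ↔ ∀ x ∈ w, ¬ sep x := by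
  classical
  unfold cnt
  rw [List.countP_eq_zero]
  simp

theorem cnt_cons {sep : α → Prop} {s : α} (hs : sep s) (w : List α) :
    cnt sep (s :: w) = cnt sep w + 1 := by
  classical
  unfold cnt
  rw [List.countP_cons_of_pos (by simpa using hs)]

theorem cnt_split {sep : α → Prop} : ∀ w : List α, cnt sep w ≠ 0 → ∃ w0 s v, w = w0 ++ s :: v ∧
    sep s ∧ ∀ x ∈ v, ¬ sep x := by
  intro w
  induction w with
  | nil => intro h; exact absurd (cnt_zero.2 (by simp)) h
  | cons a w ih =>
    intro h
    by_cases hw : cnt sep w = 0
    · refine ⟨[], a, w, rfl, ?_, cnt_zero.1 hw⟩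
      by_contra ha
      apply h
      rw [cnt_zero] at hw ⊢
      intro x hx
      rcases List.mem_cons.1 hx with rfl | hx
      · exact ha
      · exact hw x hx
    · obtain ⟨w0, s, v, h1, h2, h3⟩ := ih hw
      exact ⟨a :: w0, s, v, by rw [h1]; rfl, h2, h3⟩

theorem acc_sep [DecidableEq α] (sep : α → Prop) (RD RS : Finset (List α × List α))
    (Q : List α → List α → Prop)
    (h1 : ∀ p ∈ RD, (∀ x ∈ p.1, ¬ sep x) ∧ (∀ x ∈ p.2, ¬ sep x))
    (h2 : ∀ p ∈ RS, (∃ s l e r, sep s ∧ p.1 = s :: l ∧ p.2 = e ++ s :: r ∧ (∀ x ∈ l, ¬ sep x) ∧
      (∀ x ∈ e, ¬ sep x) ∧ (∀ x ∈ r, ¬ sep x) ∧ ∀ y, Q (r ++ y) (l ++ y)) ∨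
      (∃ s s', sep s ∧ sep s' ∧ p.1 = [s, s'] ∧ p.2 = []))
    (h3 : ∀ u v, St RD u v → Q v u) (h4 : ∀ v, Acc Q v) :
    ∀ w, Acc (fun v u => St (RD ∪ RS) u v) w := by
  -- rules of `RS` contain a separator
  have hRS : ∀ p ∈ RS, ∃ x ∈ p.1, sep x := by
    intro p hp
    rcases h2 p hp with ⟨s, l, e, r, hs, e1, -⟩ | ⟨s, s', hs, -, e1, -⟩
    · exact ⟨s, by rw [e1]; simp, hs⟩
    · exact ⟨s, by rw [e1]; simp, hs⟩
  have hle : ∀ p ∈ RD ∪ RS, cnt sep p.2 ≤ cnt sep p.1 := by
    intro p hp
    rcases Finset.mem_union.1 hp with hp | hp
    · rw [cnt_zero.2 (h1 p hp).2]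
      exact Nat.zero_le _
    · rcases h2 p hp with ⟨s, l, e, r, hs, e1, e2, hl, he, hr, -⟩ | ⟨s, s', hs, -, e1, e2⟩
      · rw [e1, e2, cnt_append, cnt_cons hs, cnt_cons hs, cnt_zero.2 hl, cnt_zero.2 he,
          cnt_zero.2 hr]
      · rw [e2, cnt_zero.2 (by simp)]
        exact Nat.zero_le _
  have hst : ∀ u v, St (RD ∪ RS) u v → cnt sep v ≤ cnt sep u := by
    rintro u v ⟨x, y, p, hp, rfl, rfl⟩
    simp only [cnt_append]
    have := hle p hp
    omega
  have h0 : ∀ v, Acc Q v → (∀ x ∈ v, ¬ sep x) → Acc (fun v u => St (RD ∪ RS) u v) v := by
    intro v hv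
    induction hv with
    | intro v _ ih =>
      intro hvs
      refine Acc.intro _ ?_
      intro v' hs
      have hs' : St RD v v' := by
        obtain ⟨x, y, p, hp, e1, e2⟩ := hs
        rcases Finset.mem_union.1 hp with hp | hp
        · exact ⟨x, y, p, hp, e1, e2⟩
        · obtain ⟨z, hz, hz'⟩ := hRS p hp
          exact absurd hz' (hvs z (by rw [e1]; simp [hz]))
      have hc : cnt sep v' = 0 := by
        have := hst v v' hs
        rw [cnt_zero.2 hvs] at this
        omega
      exact ih v' (h3 _ _ hs') (cnt_zero.1 hc)
  have hmain : ∀ k : ℕ, ∀ w, cnt sep w ≤ k → Acc (fun v u => St (RD ∪ RS) u v) w := by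
    intro k
    induction k with
    | zero => exact fun w hw => h0 w (h4 w) (cnt_zero.1 (Nat.le_zero.1 hw))
    | succ k ihk =>
      have claim : ∀ v, Acc Q v → (∀ x ∈ v, ¬ sep x) → ∀ w0,
          Acc (fun v u => St (RD ∪ RS) u v) w0 → cnt sep w0 ≤ k → ∀ s, sep s →
          Acc (fun v u => St (RD ∪ RS) u v) (w0 ++ s :: v) := by
        intro v hv
        induction hv with
        | intro v _ ihv =>
          intro hvs w0 hw0
          induction hw0 with
          | intro w0 hw0a ihw =>
            intro hc s hs
            have hw0' : Acc (fun v u => St (RD ∪ RS) u v) w0 := Acc.intro w0 hw0a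
            refine Acc.intro _ ?_
            rintro z ⟨x, y, p, hp, e1, e2⟩
            -- the rule inside `w0`
            have case1 : ∀ a', w0 = x ++ p.1 ++ a' → y = a' ++ s :: v →
                Acc (fun v u => St (RD ∪ RS) u v) z := by
              intro a' h5 h6
              have h7 : St (RD ∪ RS) w0 (x ++ p.2 ++ a') := ⟨x, a', p, hp, h5, rfl⟩
              have h8 := ihw (x ++ p.2 ++ a') h7 ((hst _ _ h7).trans hc) s hs
              rw [e2, h6]
              simpa using h8
            -- the rule starting with the separator
            have case3 : ∀ c, p.1 = s :: c → v = c ++ y → w0 = x →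
                Acc (fun v u => St (RD ∪ RS) u v) z := by
              intro c h5 h6 h7
              rcases Finset.mem_union.1 hp with hp | hp
              · exact absurd hs ((h1 p hp).1 s (by rw [h5]; simp))
              · rcases h2 p hp with ⟨s1, l, e, r, -, f1, f2, hl, he, hr, hQ⟩ |
                  ⟨s1, s2, -, hs2, f1, f2⟩
                · rw [h5] at f1
                  obtain ⟨rfl, rfl⟩ := List.cons_eq_cons.1 f1
                  have h8 := ihv (r ++ y) (by rw [h6]; exact hQ y) (by
                    intro i hi
                    rcases List.mem_append.1 hi with hi | hi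
                    · exact hr i hi
                    · exact hvs i (by rw [h6]; simp [hi])) (w0 ++ e) (ihk _ (by
                    rw [cnt_append, cnt_zero.2 he]; exact hc)) (by
                    rw [cnt_append, cnt_zero.2 he]; exact hc) s hs
                  rw [e2, f2, ← h7]
                  simpa using h8
                · rw [h5] at f1
                  obtain ⟨rfl, rfl⟩ := List.cons_eq_cons.1 f1
                  exact absurd hs2 (hvs s2 (by rw [h6]; simp))
            rcases List.append_eq_append_iff.1 e1 with ⟨a', h5, h6⟩ | ⟨c', h5, h6⟩
            · -- `x ++ p.1 = w0 ++ a'`, `s :: v = a' ++ y`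
              rcases a' with _ | ⟨s1, c⟩
              · exact case1 [] (by rw [h5]; simp) (by simpa using h6.symm)
              · rw [List.cons_append] at h6
                have h6a := (List.cons_eq_cons.1 h6).1
                have h6b := (List.cons_eq_cons.1 h6).2
                subst h6a
                rcases List.append_eq_append_iff.1 h5 with ⟨a', h7, h8⟩ | ⟨d, h7, h8⟩
                · -- `w0 = x ++ a'`, `p.1 = a' ++ s :: c`
                  rcases a' with _ | ⟨s1, a''⟩
                  · exact case3 c (by simpa using h8) h6b (by simpa using h7)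
                  · rcases Finset.mem_union.1 hp with hp | hp
                    · exact absurd hs ((h1 p hp).1 s (by rw [h8]; simp))
                    · rcases h2 p hp with ⟨s2, l, e, r, -, f1, f2, hl, he, hr, hQ⟩ |
                        ⟨s2, s3, -, hs3, f1, f2⟩
                      · rw [h8, List.cons_append] at f1
                        obtain ⟨rfl, rfl⟩ := List.cons_eq_cons.1 f1
                        exact absurd hs (hl s (by simp))
                      · rw [h8, List.cons_append] at f1
                        obtain ⟨rfl, f3⟩ := List.cons_eq_cons.1 f1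
                        have f4 : a'' = [] ∧ c = [] := by
                          have := congrArg List.length f3
                          simp at this
                          constructor
                          · apply List.eq_nil_of_length_eq_zero; omega
                          · apply List.eq_nil_of_length_eq_zero; omega
                        obtain ⟨rfl, rfl⟩ := f4
                        rw [e2, f2]
                        apply ihk
                        have f5 : v = y := by simpa using h6b
                        rw [← f5, List.append_nil, cnt_append, cnt_zero.2 hvs]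
                        rw [h7, cnt_append] at hc
                        omega
                · -- `x = w0 ++ d`, `s :: c = d ++ p.1`
                  rcases d with _ | ⟨s1, d⟩
                  · exact case3 c (by simpa using h8.symm) h6b (by simpa using h7.symm)
                  · rw [List.cons_append] at h8
                    have h8a := (List.cons_eq_cons.1 h8).1
                    have h8b := (List.cons_eq_cons.1 h8).2
                    subst h8a
                    have hpD : p ∈ RD := by
                      rcases Finset.mem_union.1 hp with hp | hp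
                      · exact hp
                      · obtain ⟨i, hi, hi'⟩ := hRS p hp
                        exact absurd hi' (hvs i (by rw [h6b, h8b]; simp [hi]))
                    have h9 : St RD v (d ++ p.2 ++ y) :=
                      ⟨d, y, p, hpD, by rw [h6b, h8b], rfl⟩
                    have h10 := ihv (d ++ p.2 ++ y) (h3 _ _ h9) (by
                      intro i hi
                      rcases List.mem_append.1 hi with hi | hi
                      · rcases List.mem_append.1 hi with hi | hi
                        · exact hvs i (by rw [h6b, h8b]; simp [hi])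
                        · exact (h1 p hpD).2 i hi
                      · exact hvs i (by rw [h6b]; simp [hi])) w0 hw0' hc s hs
                    rw [e2, h7]
                    simpa using h10
            · exact case1 c' (by rw [h5]) h6
      intro w hw
      by_cases hw' : cnt sep w ≤ k
      · exact ihk w hw'
      · obtain ⟨w0, s, v, h5, hs, hvs⟩ := cnt_split (sep := sep) w (by omega)
        have hc : cnt sep w0 ≤ k := by
          rw [h5, cnt_append, cnt_cons hs] at hw
          omega
        rw [h5]
        exact claim v (h4 v) hvs w0 (ihk w0 hc) hc s hs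
  exact fun w => hmain _ w le_rfl

end Pool.Agent.W391.BGR
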