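import Pool.Agent.W391.BGR.Term

/-!
# Termination of the rewriting system, Newman's lemma
-/

set_option autoImplicit false

namespace Pool.Agent.W391.BGR

/-- the interpretation of the letters -/
def gl (x : Fin 8) (n : ℕ) : ℕ :=
  if x = 0 ∨ x = 1 then 3 * n + 1 else if x = 5 then n + 2 else n + 1

/-- the interpretation of the words -/
def wt (w : Wd) (n : ℕ) : ℕ := w.foldl (fun n x => gl x n) n

theorem gl_mono (x : Fin 8) {n m : ℕ} (h : n < m) : gl x n < gl x m := by
  unfold gl
  split_ifs <;> omega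

theorem wt_mono (w : Wd) : ∀ {n m : ℕ}, n < m → wt w n < wt w m := by
  induction w with
  | nil => exact fun h => h
  | cons a w ih => exact fun h => ih (gl_mono a h)

theorem wt_append (u v : Wd) (n : ℕ) : wt (u ++ v) n = wt v (wt u n) := by
  unfold wt
  exact List.foldl_append

theorem wt_rule : ∀ p ∈ RA, ∀ n : ℕ, wt p.2 n < wt p.1 n := by
  intro p hp n
  simp only [RA, Finset.mem_insert, Finset.mem_singleton] at hp
  rcases hp with rfl | rfl | rfl | rfl | rfl | rfl | rfl | rfl <;>
    simp [wt, gl] <;> omega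

theorem wt_step {u v : Wd} (h : St RA u v) : wt v 0 < wt u 0 := by
  obtain ⟨x, y, p, hp, rfl, rfl⟩ := h
  rw [wt_append, wt_append, wt_append, wt_append]
  exact wt_mono y (wt_rule p hp _)

/-- weighted number of letters `a`, `A` -/
def mu (w : Wd) : ℕ := w.count 0 + 2 * w.count 1

theorem mu_append (u v : Wd) : mu (u ++ v) = mu u + mu v := by
  unfold mu
  rw [List.count_append, List.count_append]
  ring

theorem mu_rule : ∀ p ∈ RA, mu p.2 ≤ mu p.1 := by decide

theorem mu_step {u v : Wd} (h : St RA u v) : mu v ≤ mu u := by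
  obtain ⟨x, y, p, hp, rfl, rfl⟩ := h
  simp only [mu_append]
  have := mu_rule p hp
  omega

/-- the process between two letters `b` -/
def QA (v u : Wd) : Prop :=
  St RA u v ∨ u = 0 :: 0 :: v ∨ u = 0 :: v ∨ u = 1 :: v ∨ ∃ y, u = 1 :: y ∧ v = 0 :: y

theorem acc_QA : ∀ v, Acc QA v := by
  have hwf : WellFounded (InvImage (Prod.Lex (· < ·) (· < ·)) (fun w : Wd => (mu w, wt w 0))) :=
    InvImage.wf _ (WellFounded.prod_lex Nat.lt_wfRel.wf Nat.lt_wfRel.wf)
  have hsub : Subrelation QA (InvImage (Prod.Lex (· < ·) (· < ·))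
      (fun w : Wd => (mu w, wt w 0))) := by
    intro v u h
    rcases h with h | rfl | rfl | rfl | ⟨y, rfl, rfl⟩
    · have h1 := mu_step h
      have h2 := wt_step h
      rcases Nat.lt_or_eq_of_le h1 with h1 | h1
      · exact Prod.Lex.left _ _ h1
      · change Prod.Lex _ _ (mu v, wt v 0) (mu u, wt u 0)
        rw [h1]
        exact Prod.Lex.right _ h2
    · exact Prod.Lex.left _ _ (by simp only [mu, List.count_cons]; simp)
    · exact Prod.Lex.left _ _ (by simp only [mu, List.count_cons]; simp)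
    · exact Prod.Lex.left _ _ (by simp only [mu, List.count_cons]; simp)
    · exact Prod.Lex.left _ _ (by simp only [mu, List.count_cons]; simp; omega)
  exact fun v => (hsub.wf hwf).apply v

theorem acc_B : ∀ w : Wd, Acc (fun v u => St (RA ∪ RB) u v) w := by
  refine acc_sep (fun x : Fin 8 => x = 2 ∨ x = 3) RA RB QA (by decide) ?_
    (fun u v h => Or.inl h) acc_QA
  intro p hp
  simp only [RB, Finset.mem_insert, Finset.mem_singleton] at hp
  rcases hp with rfl | rfl | rfl | rfl | rfl | rfl
  · exact Or.inr ⟨2, 3, by decide, by decide, rfl, rfl⟩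
  · exact Or.inr ⟨3, 2, by decide, by decide, rfl, rfl⟩
  · refine Or.inl ⟨3, [0], [0, 0], [], by decide, rfl, rfl, by decide, by decide, by decide, ?_⟩
    exact fun y => Or.inr (Or.inr (Or.inl rfl))
  · refine Or.inl ⟨3, [1], [1, 1], [], by decide, rfl, rfl, by decide, by decide, by decide, ?_⟩
    exact fun y => Or.inr (Or.inr (Or.inr (Or.inl rfl)))
  · refine Or.inl ⟨2, [0, 0], [0], [], by decide, rfl, rfl, by decide, by decide, by decide, ?_⟩
    exact fun y => Or.inr (Or.inl rfl)
  · refine Or.inl ⟨2, [1], [1], [0], by decide, rfl, rfl, by decide, by decide, by decide, ?_⟩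
    exact fun y => Or.inr (Or.inr (Or.inr (Or.inr ⟨y, rfl, rfl⟩)))

theorem acc_RR : ∀ w : Wd, Acc (fun v u => St RR u v) w := by
  refine acc_sep (fun x : Fin 8 => x = 6 ∨ x = 7) (RA ∪ RB) RT
    (fun v u => St (RA ∪ RB) u v ∨ ∃ x, u = x :: v) (by decide) ?_
    (fun u v h => Or.inl h) (acc_drop _ acc_B)
  intro p hp
  simp only [RT, Finset.mem_insert, Finset.mem_singleton] at hp
  rcases hp with rfl | rfl | rfl | rfl | rfl | rfl | rfl | rfl | rfl | rfl
  · exact Or.inr ⟨6, 7, by decide, by decide, rfl, rfl⟩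
  · exact Or.inr ⟨7, 6, by decide, by decide, rfl, rfl⟩
  · exact Or.inl ⟨6, [0], [4], [], by decide, rfl, rfl, by decide, by decide, by decide,
      fun y => Or.inr ⟨0, rfl⟩⟩
  · exact Or.inl ⟨6, [1], [5], [], by decide, rfl, rfl, by decide, by decide, by decide,
      fun y => Or.inr ⟨1, rfl⟩⟩
  · exact Or.inl ⟨6, [2], [0], [], by decide, rfl, rfl, by decide, by decide, by decide,
      fun y => Or.inr ⟨2, rfl⟩⟩
  · exact Or.inl ⟨6, [3], [1], [], by decide, rfl, rfl, by decide, by decide, by decide,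
      fun y => Or.inr ⟨3, rfl⟩⟩
  · exact Or.inl ⟨7, [4], [0], [], by decide, rfl, rfl, by decide, by decide, by decide,
      fun y => Or.inr ⟨4, rfl⟩⟩
  · exact Or.inl ⟨7, [5], [1], [], by decide, rfl, rfl, by decide, by decide, by decide,
      fun y => Or.inr ⟨5, rfl⟩⟩
  · exact Or.inl ⟨7, [0], [2], [], by decide, rfl, rfl, by decide, by decide, by decide,
      fun y => Or.inr ⟨0, rfl⟩⟩
  · exact Or.inl ⟨7, [1], [3], [], by decide, rfl, rfl, by decide, by decide, by decide,
      fun y => Or.inr ⟨1, rfl⟩⟩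

theorem wf_RR : WellFounded (fun v u : Wd => St RR u v) := ⟨acc_RR⟩

/-- Newman's lemma -/
theorem newman {β : Type} (r : β → β → Prop) (hwf : WellFounded (fun v u => r u v))
    (hlc : ∀ u v w, r u v → r u w → Relation.Join (Relation.ReflTransGen r) v w) :
    ∀ a b c, Relation.ReflTransGen r a b → Relation.ReflTransGen r a c →
      Relation.Join (Relation.ReflTransGen r) b c := by
  intro a
  induction hwf.apply a with
  | intro a _ ih =>
    intro b c hb hc
    rcases Relation.ReflTransGen.cases_head hb with rfl | ⟨b1, h1, h2⟩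
    · exact ⟨c, hc, Relation.ReflTransGen.refl⟩
    · rcases Relation.ReflTransGen.cases_head hc with rfl | ⟨c1, h3, h4⟩
      · exact ⟨b, Relation.ReflTransGen.refl, hb⟩
      · obtain ⟨d, h5, h6⟩ := hlc a b1 c1 h1 h3
        obtain ⟨e, h7, h8⟩ := ih b1 h1 b d h2 h5
        obtain ⟨f, h9, h10⟩ := ih c1 h3 e c (h6.trans h8) h4
        exact ⟨f, h7.trans h9, h10⟩

end Pool.Agent.W391.BGR
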